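import Pool.Agent.helper88.EF.Defs
import Pool.Agent.helper82.EF.GF

/-! # Module FN (project EF): the functional -/

namespace Pool.Agent.helper88.EF

open Finset Pool.Agent.helper76.LP

theorem func (m D q : ℕ) [NeZero m] [NeZero D] (hD : D ∣ m) (c0 c : ZMod m → ℤ)
    (hQ : QEq q c0 c) (hmax : ∀ x, D ∣ addOrderOf x → addOrderOf x ≠ D → anti c x = 0)
    (ψ : (ZMod D)ˣ → ℤ) (s : ZMod m → ℚ) (hs : Ext m D q ψ s) :
    (((∑ z : (ZMod D)ˣ, anti c (emb D m (z : ZMod D)) * ψ z : ℤ) : ℚ)) =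
      ∑ x, (anti c0 x : ℚ) * s x := by
  classical
  rw [← hQ.2.2.2 s hs.dist]
  have h1 : ∑ x, (anti c x : ℚ) * s x =
      ∑ x ∈ (univ.image fun z : (ZMod D)ˣ => emb D m (z : ZMod D)), (anti c x : ℚ) * s x := by
    symm
    apply Finset.sum_subset (Finset.subset_univ _)
    intro x _ hx
    by_contra h
    have ha : anti c x ≠ 0 := by
      intro h0; apply h; rw [h0]; simp
    have hb : s x ≠ 0 := by
      intro h0; apply h; rw [h0, mul_zero]
    have ho : addOrderOf x = D := by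
      by_contra hne
      exact ha (hmax x (hs.supp x hb).1 hne)
    obtain ⟨z, hz⟩ := exists_emb x ho
    exact hx (Finset.mem_image.2 ⟨z, Finset.mem_univ _, hz⟩)
  rw [h1, Finset.sum_image]
  · push_cast
    exact Finset.sum_congr rfl fun z _ => by rw [hs.val]
  · intro z _ w _ h
    exact Units.ext (emb_injective hD h)

/-- the estimate with an arbitrary bound `K` -/
theorem FN_est (m D q : ℕ) [NeZero m] [NeZero D] (hD : D ∣ m) (hq : q.Prime) (hqD : q ∣ D)
    (K : ℤ) (c0 c : ZMod m → ℤ) (hQ : QEq q c0 c)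
    (hmax : ∀ x, D ∣ addOrderOf x → addOrderOf x ≠ D → anti c x = 0)
    (hb : (∑ x, if q ∣ addOrderOf x then |anti c0 x| else 0) ≤ K)
    (ψ : (ZMod D)ˣ → ℤ) (B : ℤ) (hT : Tst D q ψ) (hB : Bd D (Even m) ψ B) :
    |∑ z : (ZMod D)ˣ, anti c (emb D m (z : ZMod D)) * ψ z| ≤ K * B := by
  classical
  obtain ⟨s, hs, hsB⟩ := gf m D q hD hq hqD ψ hT B hB
  have hB0 : (0 : ℚ) ≤ (B : ℚ) := (abs_nonneg _).trans (hsB 0)
  have h1 := func m D q hD c0 c hQ hmax ψ s hs
  have h2 : |((∑ z : (ZMod D)ˣ, anti c (emb D m (z : ZMod D)) * ψ z : ℤ) : ℚ)| ≤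
      ((K * B : ℤ) : ℚ) := by
    rw [h1]
    calc |∑ x, (anti c0 x : ℚ) * s x| ≤ ∑ x, |(anti c0 x : ℚ) * s x| :=
          Finset.abs_sum_le_sum_abs _ _
      _ ≤ ∑ x, ((if q ∣ addOrderOf x then |anti c0 x| else 0 : ℤ) : ℚ) * B := by
          apply Finset.sum_le_sum
          intro x _
          rw [abs_mul]
          split_ifs with hx
          · push_cast
            exact mul_le_mul_of_nonneg_left (hsB x) (abs_nonneg _)
          · have h0 : s x = 0 := by
              by_contra hne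
              exact hx (hqD.trans (hs.supp x hne).1)
            rw [h0]; simp
      _ = ((∑ x, if q ∣ addOrderOf x then |anti c0 x| else 0 : ℤ) : ℚ) * B := by
          rw [← Finset.sum_mul]; push_cast; rfl
      _ ≤ (K : ℚ) * B := by
          apply mul_le_mul_of_nonneg_right _ hB0
          exact_mod_cast hb
      _ = ((K * B : ℤ) : ℚ) := by push_cast; rfl
  exact_mod_cast h2

theorem est_of (m D q : ℕ) [NeZero m] [NeZero D] (hD : D ∣ m) (hq : q.Prime) (hqD : q ∣ D)
    (c0 c : ZMod m → ℤ) (hQ : QEq q c0 c)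
    (hmax : ∀ x, D ∣ addOrderOf x → addOrderOf x ≠ D → anti c x = 0)
    (hb : (∑ x, if q ∣ addOrderOf x then |anti c0 x| else 0) ≤ 12) :
    Est D q (Even m) (fun z => anti c (emb D m (z : ZMod D))) :=
  fun ψ B hT hB => FN_est m D q hD hq hqD 12 c0 c hQ hmax hb ψ B hT hB

end Pool.Agent.helper88.EF
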