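import Pool.Agent.helper1.EF.RH0

/-! # Module RH (project EF): `r12` -/

namespace Pool.Agent.helper88.EF

open Finset Pool.Agent.helper76.LP

theorem r12 (D q : ℕ) [NeZero D] (L : List ℕ) (ev : Prop) (f : (ZMod D)ˣ → ℤ)
    (h : RHyp D q L ev f) (h11 : 11 ≤ q) (hD : D = 45 * q) : MDv (Gam D) L f := by
  have hmem := RH_mem h.nd h.hL
  have hq := h.hq
  have hL' : ∀ p ∈ L, p = 3 ∨ p = 5 := by
    intro p hp
    obtain ⟨h1, h2, h3⟩ := (hmem p).1 hp
    rw [hD, h1.dvd_mul] at h2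
    rcases h2 with h2 | h2
    · have h4 : p ∣ 3 * 3 * 5 := h2
      rw [h1.dvd_mul, h1.dvd_mul] at h4
      rcases h4 with (h4 | h4) | h4
      · exact Or.inl ((Nat.prime_dvd_prime_iff_eq h1 Nat.prime_three).1 h4)
      · exact Or.inl ((Nat.prime_dvd_prime_iff_eq h1 Nat.prime_three).1 h4)
      · exact Or.inr ((Nat.prime_dvd_prime_iff_eq h1 Nat.prime_five).1 h4)
    · exact absurd ((Nat.prime_dvd_prime_iff_eq h1 hq).1 h2) h3
  have h3D : 3 ∣ D := ⟨15 * q, by rw [hD]; ring⟩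
  have h5D : 5 ∣ D := ⟨9 * q, by rw [hD]; ring⟩
  have hqD : q ∣ D := ⟨45, by rw [hD]; ring⟩
  have h3L : 3 ∈ L := (hmem 3).2 ⟨Nat.prime_three, h3D, by omega⟩
  have h5L : 5 ∈ L := (hmem 5).2 ⟨Nat.prime_five, h5D, by omega⟩
  have hnd : L.Nodup := (List.nodup_cons.1 h.nd).2
  have hq0 : 0 < q := by omega
  have hDq : D / q = 45 := by rw [hD]; exact Nat.mul_div_cancel _ hq0
  have hD3 : D / 3 = 15 * q := by rw [hD]; omega
  have hD5 : D / 5 = 9 * q := by rw [hD]; omega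
  have h25 : ¬ 5 * 5 ∣ D := by
    rw [hD]
    intro h1
    have h2 : 5 * 5 ∣ 5 * (9 * q) := by rw [← mul_assoc]; exact h1
    have h3 := Nat.dvd_of_mul_dvd_mul_left (by norm_num) h2
    rw [Nat.prime_five.dvd_mul] at h3
    rcases h3 with h3 | h3
    · omega
    · have := (Nat.prime_dvd_prime_iff_eq Nat.prime_five hq).1 h3
      omega
  have hneg : (-1 : (ZMod D)ˣ) ∉ Pl (Gam D) (q :: L) :=
    neg_one_not D q L h.hL (Or.inl ⟨3, Nat.prime_three, le_rfl, ⟨5 * q, by rw [hD]; ring⟩⟩)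
  -- the conditions for the reductions modulo 3 and 5
  have hr3 : ∀ p ∈ L, p ≠ 3 → 3 ∣ D / p := by
    intro p hp hp3
    rcases hL' p hp with rfl | rfl
    · exact absurd rfl hp3
    · rw [hD5]; exact ⟨3 * q, by ring⟩
  have hr5 : ∀ p ∈ L, p ≠ 5 → 5 ∣ D / p := by
    intro p hp hp5
    rcases hL' p hp with rfl | rfl
    · rw [hD3]; exact ⟨3 * q, by ring⟩
    · exact absurd rfl hp5
  have hq3 : 3 ∣ D / q := by rw [hDq]; norm_num
  have hq5 : 5 ∣ D / q := by rw [hDq]; norm_num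
  let u5 : (ZMod 5)ˣ := ⟨2, 3, by decide, by decide⟩
  have hu5 : Subgroup.closure ({u5} : Set (ZMod 5)ˣ) = ⊤ :=
    RH_top u5 4 (by decide)
  apply mdv_of_dl (Gam D) L hnd (fun p => if p = 5 then
    {v | v ∈ Gam D 5 ∧ ZMod.unitsMap h5D v ∈ ({u5} : Set (ZMod 5)ˣ)} else (Gam D p : Set _))
  · intro p hp
    rcases hL' p hp with rfl | rfl
    · simp
    · simp only [if_true]
      exact gam_closure D 5 Nat.prime_five h5D h25 {u5} hu5
  intro v hV z
  have hv5 : v 5 ∈ Gam D 5 ∧ ZMod.unitsMap h5D (v 5) = u5 := by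
    have := hV 5 h5L
    simpa using this
  have hv3 : v 3 ∈ Gam D 3 := by
    have := hV 3 h3L
    simpa using this
  have hv : ∀ p ∈ L, v p ∈ Gam D p := by
    intro p hp
    rcases hL' p hp with rfl | rfl
    · exact hv3
    · exact hv5.1
  by_cases hv31 : v 3 = 1
  · exact RH_dl_one v L 3 h3L hv31 f z
  have hv51 : v 5 ≠ 1 := by
    intro h1
    have h2 := hv5.2
    rw [h1, map_one] at h2
    exact absurd h2 (by decide)
  -- the involution at 5
  set ν := v 5 * v 5 with hν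
  have hνG : ν ∈ Gam D 5 := Subgroup.mul_mem _ hv5.1 hv5.1
  have hν5 : ZMod.unitsMap h5D ν = -1 := by
    rw [hν, map_mul, hv5.2]; decide
  have hν1 : ν ≠ 1 := by
    intro h1
    rw [h1, map_one] at hν5
    exact absurd hν5 (by decide)
  have hA : ∀ x, dl v L f (ν * x) = dl v L f x := by
    apply RH_inv v L hnd 5 h5L ν f
    intro x
    have hup5 : Function.update v 5 ν 5 = ν := Function.update_self ..
    have hup3 : Function.update v 5 ν 3 = v 3 := Function.update_of_ne (by norm_num) _ _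
    refine RH_zero h hqD h11 _ ?_ ?_ (Or.inl hneg) 5 h5D hq5 hr5 ?_ x
    · intro p hp
      rcases hL' p hp with rfl | rfl
      · rw [hup3]; exact hv3
      · rw [hup5]; exact hνG
    · intro p hp
      rcases hL' p hp with rfl | rfl
      · rw [hup3]; exact hv31
      · rw [hup5]; exact hν1
    · rw [hup5, hν5]
      decide
  have hv1 : ∀ p ∈ L, v p ≠ 1 := by
    intro p hp
    rcases hL' p hp with rfl | rfl
    · exact hv31
    · exact hv51
  obtain ⟨ψ1, hT1, hC1, hs1⟩ := cube_test D q L h.nd h.hL v hv hv1 (Or.inl hneg) z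
  obtain ⟨ψ2, hT2, hC2, hs2⟩ := cube_test D q L h.nd h.hL v hv hv1 (Or.inl hneg) (ν * z)
  have hdis : ∀ x, ψ1 x = 0 ∨ ψ2 x = 0 := by
    intro x
    by_contra hx
    push Not at hx
    obtain ⟨b, S1, S2, hS⟩ := RH_pair hv hC1 hC2 x hx.1 hx.2
    have h3 := hS 3 h3D hq3 hr3
    have h5 := hS 5 h5D hq5 hr5
    have hv33 : ZMod.unitsMap h3D (v 3) = 1 :=
      gam_one D 3 3 h3D (by rw [hD3]; exact ⟨5 * q, by ring⟩) (v 3) hv3
    have hν3 : ZMod.unitsMap h3D ν = 1 :=
      gam_one D 5 3 h3D (by rw [hD5]; exact ⟨3 * q, by ring⟩) ν hνG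
    rw [map_mul, ← mul_assoc] at h3 h5
    have h3' := mul_right_cancel h3
    have h5' := mul_right_cancel h5
    rw [hv33, hν3] at h3'
    rw [hv5.2, hν5] at h5'
    have hb : ∀ b : Bool, ((if 3 ∈ S1 then (1 : (ZMod 3)ˣ) else 1) =
        su b * (if 3 ∈ S2 then 1 else 1) * 1) → b = false := by
      intro b
      simp only [ite_self, mul_one]
      revert b; decide
    have hb' := hb b h3'
    subst hb'
    have h5'' : ∀ i j : Bool, (if i then u5 else 1) ≠ su false * (if j then u5 else 1) * -1 := by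
      decide
    apply h5'' (decide (5 ∈ S1)) (decide (5 ∈ S2))
    simpa using h5'
  have habs : ∀ x, |ψ1 x + ψ2 x| ≤ 1 := by
    intro x
    rcases hdis x with h0 | h0
    · rw [h0, zero_add]; exact RH_cub_abs hC2 x
    · rw [h0, add_zero]; exact RH_cub_abs hC1 x
  have hB : Bd D ev (fun x => ψ1 x + ψ2 x) 2 := by
    refine ⟨fun x => (habs x).trans (by norm_num), ?_⟩
    intro _ _ y y' _
    calc |ψ1 y' + ψ2 y' - (ψ1 y + ψ2 y)| ≤ |ψ1 y' + ψ2 y'| + |ψ1 y + ψ2 y| := abs_sub _ _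
      _ ≤ 1 + 1 := add_le_add (habs y') (habs y)
      _ = 2 := by norm_num
  have h4 := h.est _ 2 (RH_tst_add hT1 hT2) hB
  have h5 : ∑ x, f x * (ψ1 x + ψ2 x) = 4 * (Nat.card (Gam D q) : ℤ) * dl v L f z := by
    simp only [mul_add]
    rw [Finset.sum_add_distrib, hs1 f h.odd h.mdv, hs2 f h.odd h.mdv, hA]
    ring
  rw [h5] at h4
  exact RH_int 4 _ _ _ (by norm_num) (RH_card D q hq hqD h11) h4 (by norm_num)

end Pool.Agent.helper88.EF
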