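import Pool.Agent.helper52.EF.CT
import Pool.Agent.helper58.QR.GA
import Pool.Agent.helper23.EF.RS
import Pool.Agent.helper13.EF.DL

/-! # Module RH (project EF): common lemmas -/

namespace Pool.Agent.helper88.EF

open Finset Pool.Agent.helper76.LP

lemma RH_card (D q : ℕ) [NeZero D] (hq : q.Prime) (hqD : q ∣ D) (h11 : 11 ≤ q) :
    (10 : ℤ) ≤ (Nat.card (Gam D q) : ℤ) := by
  rw [card_Gam D q hq hqD]; split_ifs <;> omega

lemma RH_int (k c d B : ℤ) (hk : 0 < k) (hc : 10 ≤ c) (h : |k * c * d| ≤ B)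
    (hB : B < k * 10) : d = 0 := by
  by_contra hd
  have h1 : 1 ≤ |d| := Int.one_le_abs hd
  have h2 : 0 < k * c := by positivity
  rw [abs_mul, abs_of_pos h2] at h
  have h3 : k * c * 1 ≤ k * c * |d| := mul_le_mul_of_nonneg_left h1 h2.le
  have h4 : k * 10 ≤ k * c := mul_le_mul_of_nonneg_left hc hk.le
  linarith

lemma RH_su {D r : ℕ} (hr : r ∣ D) (b : Bool) :
    ZMod.unitsMap hr (su b : (ZMod D)ˣ) = su b := by
  cases b
  · simp [su]
  · apply Units.ext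
    simp [su, ZMod.unitsMap_def]

lemma RH_red {D r : ℕ} [NeZero D] {L : List ℕ} {v : ℕ → (ZMod D)ˣ}
    (hv : ∀ p ∈ L, v p ∈ Gam D p) (hr : r ∣ D) (hrp : ∀ p ∈ L, p ≠ r → r ∣ D / p)
    {S : Finset ℕ} (hS : S ⊆ L.toFinset) :
    ZMod.unitsMap hr (∏ p ∈ S, v p) = if r ∈ S then ZMod.unitsMap hr (v r) else 1 := by
  rw [map_prod]
  have h1 : ∀ p ∈ S, p ≠ r → ZMod.unitsMap hr (v p) = 1 := by
    intro p hp hpr
    have hpL : p ∈ L := List.mem_toFinset.1 (hS hp)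
    exact gam_one D p r hr (hrp p hpL hpr) (v p) (hv p hpL)
  by_cases hrS : r ∈ S
  · rw [if_pos hrS]
    exact Finset.prod_eq_single_of_mem r hrS h1
  · rw [if_neg hrS]
    exact Finset.prod_eq_one fun p hp => h1 p hp (by rintro rfl; exact hrS hp)

lemma RH_cub_abs {D q : ℕ} {L : List ℕ} {v : ℕ → (ZMod D)ˣ} {z : (ZMod D)ˣ}
    {ψ : (ZMod D)ˣ → ℤ} (h : Cub D q L v z ψ) (x : (ZMod D)ˣ) : |ψ x| ≤ 1 := by
  rcases h x with h0 | ⟨b, S, ξ, _, _, _, h1⟩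
  · rw [h0]; simp
  · rw [h1, abs_mul, abs_pow, abs_neg, abs_one, one_pow, mul_one]
    cases b <;> simp [sg]

lemma RH_dl_congr {G : Type*} [CommGroup G] (v v' : ℕ → G) (L : List ℕ)
    (h : ∀ p ∈ L, v p = v' p) (f : G → ℤ) : dl v L f = dl v' L f := by
  induction L generalizing f with
  | nil => rfl
  | cons p L ih =>
    simp only [dl]
    rw [h p (List.mem_cons_self ..), ih fun r hr => h r (List.mem_cons_of_mem _ hr)]

lemma RH_dl_one {G : Type*} [CommGroup G] (v : ℕ → G) (L : List ℕ) (p : ℕ) (hp : p ∈ L)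
    (h : v p = 1) (f : G → ℤ) (x : G) : dl v L f x = 0 := by
  rw [dl_erase v L p hp, h, one_mul, sub_self]

/-- invariance under `ν` if the differences with `v p` replaced by `ν` vanish -/
lemma RH_inv {G : Type*} [CommGroup G] (v : ℕ → G) (L : List ℕ) (hL : L.Nodup) (p : ℕ)
    (hp : p ∈ L) (ν : G) (f : G → ℤ) (h : ∀ x, dl (Function.update v p ν) L f x = 0) (x : G) :
    dl v L f (ν * x) = dl v L f x := by
  have h1 : dl (Function.update v p ν) (L.erase p) f = dl v (L.erase p) f := by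
    apply RH_dl_congr
    intro r hr
    have hne : r ≠ p := (hL.mem_erase_iff.1 hr).1
    rw [Function.update_of_ne hne]
  have h2 : ∀ y, dl v (L.erase p) f (ν * y) = dl v (L.erase p) f y := by
    intro y
    have h3 := h y
    rw [dl_erase _ L p hp, h1, Function.update_self] at h3
    linarith
  rw [dl_erase v L p hp, dl_erase v L p hp, h2, mul_left_comm, h2]

/-- `L` contains the primes of `D` except `q` -/
lemma RH_mem {D q : ℕ} [NeZero D] {L : List ℕ} (hnd : (q :: L).Nodup)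
    (hL : (q :: L).toFinset = D.primeFactors) (p : ℕ) :
    p ∈ L ↔ p.Prime ∧ p ∣ D ∧ p ≠ q := by
  have h1 : p ∈ (q :: L).toFinset ↔ p ∈ D.primeFactors := by rw [hL]
  rw [List.mem_toFinset, List.mem_cons, Nat.mem_primeFactors_of_ne_zero (NeZero.ne D)] at h1
  have hq : q ∉ L := (List.nodup_cons.1 hnd).1
  constructor
  · intro h
    have h2 := h1.1 (Or.inr h)
    exact ⟨h2.1, h2.2, by rintro rfl; exact hq h⟩
  · rintro ⟨h2, h3, h4⟩
    exact (h1.2 ⟨h2, h3⟩).resolve_left h4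

/-- no bad pairs modulo `r`: the differences vanish -/
theorem RH_zero {D q : ℕ} [NeZero D] {L : List ℕ} {ev : Prop} {f : (ZMod D)ˣ → ℤ}
    (h : RHyp D q L ev f) (hqD : q ∣ D) (h11 : 11 ≤ q) (v : ℕ → (ZMod D)ˣ)
    (hv : ∀ p ∈ L, v p ∈ Gam D p) (hv1 : ∀ p ∈ L, v p ≠ 1)
    (h1 : (-1 : (ZMod D)ˣ) ∉ Pl (Gam D) (q :: L) ∨ ∃ p ∈ L, v p * v p ≠ 1)
    (r : ℕ) (hr : r ∣ D) (hrq : r ∣ D / q) (hrp : ∀ p ∈ L, p ≠ r → r ∣ D / p)
    (hbad : ∀ (b i j : Bool), (2 : ZMod r) * (((if i then ZMod.unitsMap hr (v r) else 1 :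
      (ZMod r)ˣ)) : ZMod r) ≠ ((su b * (if j then ZMod.unitsMap hr (v r) else 1) :
      (ZMod r)ˣ) : ZMod r)) (z : (ZMod D)ˣ) : dl v L f z = 0 := by
  obtain ⟨ψ, hT, hC, hs⟩ := cube_test D q L h.nd h.hL v hv hv1 h1 z
  have hB : Bd D ev ψ 1 := by
    apply bd_one D q L v z ψ hC ev
    intro _ _ b S S' ξ hS hS' hξ he
    exfalso
    have h2 := congrArg (ZMod.castHom hr (ZMod r)) he
    rw [map_mul, map_ofNat] at h2
    have h3 : ∀ u : (ZMod D)ˣ, ZMod.castHom hr (ZMod r) (u : ZMod D) =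
        ((ZMod.unitsMap hr u : (ZMod r)ˣ) : ZMod r) := fun u => rfl
    rw [h3, h3, RH_red hv hr hrp hS, map_mul, map_mul, RH_su, RH_red hv hr hrp hS',
      gam_one D q r hr hrq ξ hξ, mul_one] at h2
    refine hbad b (decide (r ∈ S)) (decide (r ∈ S')) ?_
    simpa using h2
  have h4 := h.est ψ 1 hT hB
  rw [hs f h.odd h.mdv] at h4
  exact RH_int 2 _ _ _ (by norm_num) (RH_card D q h.hq hqD h11) h4 (by norm_num)

/-- comparison of two cubes at a common point -/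
lemma RH_pair {D q : ℕ} [NeZero D] {L : List ℕ} {v : ℕ → (ZMod D)ˣ} {z1 z2 : (ZMod D)ˣ}
    {ψ1 ψ2 : (ZMod D)ˣ → ℤ} (hv : ∀ p ∈ L, v p ∈ Gam D p)
    (h1 : Cub D q L v z1 ψ1) (h2 : Cub D q L v z2 ψ2) (x : (ZMod D)ˣ) (hx1 : ψ1 x ≠ 0)
    (hx2 : ψ2 x ≠ 0) :
    ∃ (b : Bool) (S1 S2 : Finset ℕ), ∀ (r : ℕ) (hr : r ∣ D), r ∣ D / q →
      (∀ p ∈ L, p ≠ r → r ∣ D / p) →
      (if r ∈ S1 then ZMod.unitsMap hr (v r) else 1) * ZMod.unitsMap hr z1 =
        su b * (if r ∈ S2 then ZMod.unitsMap hr (v r) else 1) * ZMod.unitsMap hr z2 := by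
  obtain ⟨b1, S1, ξ1, hS1, hξ1, hx1', _⟩ := (h1 x).resolve_left hx1
  obtain ⟨b2, S2, ξ2, hS2, hξ2, hx2', _⟩ := (h2 x).resolve_left hx2
  refine ⟨xor b1 b2, S1, S2, ?_⟩
  intro r hr hrq hrp
  have h3 := congrArg (ZMod.unitsMap hr) (hx1'.symm.trans hx2')
  simp only [map_mul] at h3
  rw [RH_su, RH_su, gam_one D q r hr hrq ξ1 hξ1, gam_one D q r hr hrq ξ2 hξ2,
    RH_red hv hr hrp hS1, RH_red hv hr hrp hS2, one_mul, one_mul] at h3
  have h4 : su (xor b1 b2) = (su b1 * su b2 : (ZMod r)ˣ) := by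
    cases b1 <;> cases b2 <;> simp [su]
  have h5 : (su b1 * su b1 : (ZMod r)ˣ) = 1 := by cases b1 <;> simp [su]
  rw [h4, mul_assoc (su b1 * su b2), mul_assoc (su b1), ← h3, ← mul_assoc, h5, one_mul]

lemma RH_top {n : ℕ} (u : (ZMod n)ˣ) (k : ℕ) (h : ∀ x : (ZMod n)ˣ, ∃ j < k, u ^ j = x) :
    Subgroup.closure ({u} : Set (ZMod n)ˣ) = ⊤ := by
  rw [eq_top_iff]
  intro x _
  obtain ⟨j, _, rfl⟩ := h x
  exact Subgroup.pow_mem _ (Subgroup.subset_closure (Set.mem_singleton u)) j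

lemma RH_tst_add {D q : ℕ} [NeZero D] {ψ1 ψ2 : (ZMod D)ˣ → ℤ} (h1 : Tst D q ψ1)
    (h2 : Tst D q ψ2) : Tst D q (fun x => ψ1 x + ψ2 x) := by
  intro p hp hpq z
  have h5 : gsum (Gam D p) (fun x => ψ1 x + ψ2 x) z =
      gsum (Gam D p) ψ1 z + gsum (Gam D p) ψ2 z := by
    unfold gsum
    rw [← Finset.sum_add_distrib]
    apply Finset.sum_congr rfl
    intro w _
    split_ifs <;> simp
  rw [h5, h1 p hp hpq z, h2 p hp hpq z, add_zero]

end Pool.Agent.helper88.EF
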