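import Pool.Agent.helper1.EF.RH0

/-! # Module RI (project EF): `r17` -/

namespace Pool.Agent.helper88.EF

open Finset Pool.Agent.helper76.LP

theorem r17 (D q : ℕ) [NeZero D] (L : List ℕ) (ev : Prop) (f : (ZMod D)ˣ → ℤ)
    (h : RHyp D q L ev f) (h11 : 11 ≤ q) (hD : D = 105 * q) : MDv (Gam D) L f := by
  have hmem := RH_mem h.nd h.hL
  have hq := h.hq
  have hL' : ∀ p ∈ L, p = 3 ∨ p = 5 ∨ p = 7 := by
    intro p hp
    obtain ⟨h1, h2, h3⟩ := (hmem p).1 hp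
    rw [hD, h1.dvd_mul] at h2
    rcases h2 with h2 | h2
    · have h4 : p ∣ 3 * 5 * 7 := h2
      rw [h1.dvd_mul, h1.dvd_mul] at h4
      rcases h4 with (h4 | h4) | h4
      · exact Or.inl ((Nat.prime_dvd_prime_iff_eq h1 Nat.prime_three).1 h4)
      · exact Or.inr (Or.inl ((Nat.prime_dvd_prime_iff_eq h1 Nat.prime_five).1 h4))
      · exact Or.inr (Or.inr ((Nat.prime_dvd_prime_iff_eq h1 (by norm_num)).1 h4))
    · exact absurd ((Nat.prime_dvd_prime_iff_eq h1 hq).1 h2) h3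
  have h3D : 3 ∣ D := ⟨35 * q, by rw [hD]; ring⟩
  have h5D : 5 ∣ D := ⟨21 * q, by rw [hD]; ring⟩
  have h7D : 7 ∣ D := ⟨15 * q, by rw [hD]; ring⟩
  have hqD : q ∣ D := ⟨105, by rw [hD]; ring⟩
  have h3L : 3 ∈ L := (hmem 3).2 ⟨Nat.prime_three, h3D, by omega⟩
  have h5L : 5 ∈ L := (hmem 5).2 ⟨Nat.prime_five, h5D, by omega⟩
  have h7L : 7 ∈ L := (hmem 7).2 ⟨by norm_num, h7D, by omega⟩
  have hnd : L.Nodup := (List.nodup_cons.1 h.nd).2
  have hq0 : 0 < q := by omega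
  have hDq : D / q = 105 := by rw [hD]; exact Nat.mul_div_cancel _ hq0
  have hD3 : D / 3 = 35 * q := by rw [hD]; omega
  have hD5 : D / 5 = 21 * q := by rw [hD]; omega
  have hD7 : D / 7 = 15 * q := by rw [hD]; omega
  have hsq : ∀ r k : ℕ, r.Prime → r < 11 → 105 = r * k → ¬ r ∣ k → ¬ r * r ∣ D := by
    intro r k hr hr11 hrk hrk' h1
    rw [hD, hrk, mul_assoc] at h1
    have h3 := Nat.dvd_of_mul_dvd_mul_left hr.pos h1
    rw [hr.dvd_mul] at h3
    rcases h3 with h3 | h3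
    · exact hrk' h3
    · have := (Nat.prime_dvd_prime_iff_eq hr hq).1 h3
      omega
  have h33 : ¬ 3 * 3 ∣ D := hsq 3 35 Nat.prime_three (by norm_num) (by norm_num) (by norm_num)
  have h55 : ¬ 5 * 5 ∣ D := hsq 5 21 Nat.prime_five (by norm_num) (by norm_num) (by norm_num)
  have h77 : ¬ 7 * 7 ∣ D := hsq 7 15 (by norm_num) (by norm_num) (by norm_num) (by norm_num)
  have hr5 : ∀ p ∈ L, p ≠ 5 → 5 ∣ D / p := by
    intro p hp hp5
    rcases hL' p hp with rfl | rfl | rfl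
    · rw [hD3]; exact ⟨7 * q, by ring⟩
    · exact absurd rfl hp5
    · rw [hD7]; exact ⟨3 * q, by ring⟩
  have hr7 : ∀ p ∈ L, p ≠ 7 → 7 ∣ D / p := by
    intro p hp hp7
    rcases hL' p hp with rfl | rfl | rfl
    · rw [hD3]; exact ⟨5 * q, by ring⟩
    · rw [hD5]; exact ⟨3 * q, by ring⟩
    · exact absurd rfl hp7
  have hq5 : 5 ∣ D / q := by rw [hDq]; norm_num
  have hq7 : 7 ∣ D / q := by rw [hDq]; norm_num
  let u3 : (ZMod 3)ˣ := ⟨2, 2, by decide, by decide⟩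
  let u5 : (ZMod 5)ˣ := ⟨2, 3, by decide, by decide⟩
  let u7 : (ZMod 7)ˣ := ⟨3, 5, by decide, by decide⟩
  have hu3 : Subgroup.closure ({u3} : Set (ZMod 3)ˣ) = ⊤ := RH_top u3 2 (by decide)
  have hu5 : Subgroup.closure ({u5} : Set (ZMod 5)ˣ) = ⊤ := RH_top u5 4 (by decide)
  have hu7 : Subgroup.closure ({u7} : Set (ZMod 7)ˣ) = ⊤ := RH_top u7 6 (by decide)
  apply mdv_of_dl (Gam D) L hnd (fun p => if p = 3 then
    {v | v ∈ Gam D 3 ∧ ZMod.unitsMap h3D v ∈ ({u3} : Set (ZMod 3)ˣ)} else if p = 5 then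
    {v | v ∈ Gam D 5 ∧ ZMod.unitsMap h5D v ∈ ({u5} : Set (ZMod 5)ˣ)} else
    {v | v ∈ Gam D 7 ∧ ZMod.unitsMap h7D v ∈ ({u7} : Set (ZMod 7)ˣ)})
  · intro p hp
    rcases hL' p hp with rfl | rfl | rfl
    · exact gam_closure D 3 Nat.prime_three h3D h33 {u3} hu3
    · exact gam_closure D 5 Nat.prime_five h5D h55 {u5} hu5
    · exact gam_closure D 7 (by norm_num) h7D h77 {u7} hu7
  intro v hV z
  have hv3 : v 3 ∈ Gam D 3 ∧ ZMod.unitsMap h3D (v 3) = u3 := hV 3 h3L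
  have hv5 : v 5 ∈ Gam D 5 ∧ ZMod.unitsMap h5D (v 5) = u5 := hV 5 h5L
  have hv7 : v 7 ∈ Gam D 7 ∧ ZMod.unitsMap h7D (v 7) = u7 := hV 7 h7L
  have hv : ∀ p ∈ L, v p ∈ Gam D p := by
    intro p hp
    rcases hL' p hp with rfl | rfl | rfl
    · exact hv3.1
    · exact hv5.1
    · exact hv7.1
  have hv31 : v 3 ≠ 1 := by
    intro h1
    have h2 := hv3.2
    rw [h1, map_one] at h2
    exact absurd h2 (by decide)
  have hv51 : v 5 ≠ 1 := by
    intro h1
    have h2 := hv5.2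
    rw [h1, map_one] at h2
    exact absurd h2 (by decide)
  have hv71 : v 7 ≠ 1 := by
    intro h1
    have h2 := hv7.2
    rw [h1, map_one] at h2
    exact absurd h2 (by decide)
  have hv1 : ∀ p ∈ L, v p ≠ 1 := by
    intro p hp
    rcases hL' p hp with rfl | rfl | rfl
    · exact hv31
    · exact hv51
    · exact hv71
  have hv55 : v 5 * v 5 ≠ 1 := by
    intro h1
    have h2 := congrArg (ZMod.unitsMap h5D) h1
    rw [map_mul, hv5.2, map_one] at h2
    exact absurd h2 (by decide)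
  have hv77 : v 7 * v 7 ≠ 1 := by
    intro h1
    have h2 := congrArg (ZMod.unitsMap h7D) h1
    rw [map_mul, hv7.2, map_one] at h2
    exact absurd h2 (by decide)
  -- the involutions
  set ν := v 5 * v 5 with hν
  set μ := v 7 * v 7 * v 7 with hμ
  have hνG : ν ∈ Gam D 5 := Subgroup.mul_mem _ hv5.1 hv5.1
  have hμG : μ ∈ Gam D 7 := Subgroup.mul_mem _ (Subgroup.mul_mem _ hv7.1 hv7.1) hv7.1
  have hν5 : ZMod.unitsMap h5D ν = -1 := by
    rw [hν, map_mul, hv5.2]; decide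
  have hμ7 : ZMod.unitsMap h7D μ = -1 := by
    rw [hμ, map_mul, map_mul, hv7.2]; decide
  have hν7 : ZMod.unitsMap h7D ν = 1 := gam_one D 5 7 h7D (hr7 5 h5L (by norm_num)) ν hνG
  have hμ5 : ZMod.unitsMap h5D μ = 1 := gam_one D 7 5 h5D (hr5 7 h7L (by norm_num)) μ hμG
  have hν1 : ν ≠ 1 := hv55
  have hμ1 : μ ≠ 1 := by
    intro h1
    rw [h1, map_one] at hμ7
    exact absurd hμ7 (by decide)
  have hA : ∀ x, dl v L f (ν * x) = dl v L f x := by
    apply RH_inv v L hnd 5 h5L ν f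
    intro x
    have hup5 : Function.update v 5 ν 5 = ν := Function.update_self ..
    have hup3 : Function.update v 5 ν 3 = v 3 := Function.update_of_ne (by norm_num) _ _
    have hup7 : Function.update v 5 ν 7 = v 7 := Function.update_of_ne (by norm_num) _ _
    refine RH_zero h hqD h11 _ ?_ ?_ (Or.inr ⟨7, h7L, ?_⟩) 5 h5D hq5 hr5 ?_ x
    · intro p hp
      rcases hL' p hp with rfl | rfl | rfl
      · rw [hup3]; exact hv3.1
      · rw [hup5]; exact hνG
      · rw [hup7]; exact hv7.1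
    · intro p hp
      rcases hL' p hp with rfl | rfl | rfl
      · rw [hup3]; exact hv31
      · rw [hup5]; exact hν1
      · rw [hup7]; exact hv71
    · rw [hup7]; exact hv77
    · rw [hup5, hν5]
      decide
  have hB : ∀ x, dl v L f (μ * x) = dl v L f x := by
    apply RH_inv v L hnd 7 h7L μ f
    intro x
    have hup7 : Function.update v 7 μ 7 = μ := Function.update_self ..
    have hup3 : Function.update v 7 μ 3 = v 3 := Function.update_of_ne (by norm_num) _ _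
    have hup5 : Function.update v 7 μ 5 = v 5 := Function.update_of_ne (by norm_num) _ _
    refine RH_zero h hqD h11 _ ?_ ?_ (Or.inr ⟨5, h5L, ?_⟩) 7 h7D hq7 hr7 ?_ x
    · intro p hp
      rcases hL' p hp with rfl | rfl | rfl
      · rw [hup3]; exact hv3.1
      · rw [hup5]; exact hv5.1
      · rw [hup7]; exact hμG
    · intro p hp
      rcases hL' p hp with rfl | rfl | rfl
      · rw [hup3]; exact hv31
      · rw [hup5]; exact hv51
      · rw [hup7]; exact hμ1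
    · rw [hup5]; exact hv55
    · rw [hup7, hμ7]
      decide
  have hc : (-1 : (ZMod D)ˣ) ∉ Pl (Gam D) (q :: L) ∨ ∃ p ∈ L, v p * v p ≠ 1 :=
    Or.inr ⟨5, h5L, hv55⟩
  obtain ⟨ψ1, hT1, hC1, hs1⟩ := cube_test D q L h.nd h.hL v hv hv1 hc z
  obtain ⟨ψ2, hT2, hC2, hs2⟩ := cube_test D q L h.nd h.hL v hv hv1 hc (ν * (μ * z))
  obtain ⟨ψ3, hT3, hC3, hs3⟩ := cube_test D q L h.nd h.hL v hv hv1 hc (ν * z)
  obtain ⟨ψ4, hT4, hC4, hs4⟩ := cube_test D q L h.nd h.hL v hv hv1 hc (μ * z)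
  -- general disjointness
  have key : ∀ (s : Bool) (z1 z2 : (ZMod D)ˣ) (ψ ψ' : (ZMod D)ˣ → ℤ), Cub D q L v z1 ψ →
      Cub D q L v z2 ψ' →
      ZMod.unitsMap h5D z1 = (if s then -1 else 1) * ZMod.unitsMap h5D z →
      ZMod.unitsMap h7D z1 = (if s then -1 else 1) * ZMod.unitsMap h7D z →
      ∀ t : Bool, ZMod.unitsMap h5D z2 = (if t then -1 else 1) * ZMod.unitsMap h5D z →
      ZMod.unitsMap h7D z2 = (if t then 1 else -1) * ZMod.unitsMap h7D z →
      ∀ x, ψ x = 0 ∨ ψ' x = 0 := by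
    intro s z1 z2 ψ ψ' hC hC' a1 a2 t a3 a4 x
    by_contra hx
    push Not at hx
    obtain ⟨b, S1, S2, hS⟩ := RH_pair hv hC hC' x hx.1 hx.2
    have h5 := hS 5 h5D hq5 hr5
    have h7 := hS 7 h7D hq7 hr7
    rw [a1, a3, ← mul_assoc, ← mul_assoc] at h5
    rw [a2, a4, ← mul_assoc, ← mul_assoc] at h7
    have h5' := mul_right_cancel h5
    have h7' := mul_right_cancel h7
    rw [hv5.2] at h5'
    rw [hv7.2] at h7'
    have h5'' : ∀ i j b s t : Bool, (if i then u5 else 1) * (if s then -1 else 1) =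
        su b * (if j then u5 else 1) * (if t then -1 else 1) → xor (xor s t) b = false := by
      decide
    have h7'' : ∀ i j b s t : Bool, (if i then u7 else 1) * (if s then -1 else 1) =
        su b * (if j then u7 else 1) * (if t then 1 else -1) → xor (xor s (!t)) b = false := by
      decide
    have e1 := h5'' (decide (5 ∈ S1)) (decide (5 ∈ S2)) b s t (by simpa using h5')
    have e2 := h7'' (decide (7 ∈ S1)) (decide (7 ∈ S2)) b s t (by simpa using h7')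
    revert e1 e2
    cases s <;> cases t <;> cases b <;> decide
  have d13 : ∀ x, ψ1 x = 0 ∨ ψ3 x = 0 :=
    key false z (ν * z) ψ1 ψ3 hC1 hC3 (by simp) (by simp) true
      (by rw [map_mul, hν5]; simp) (by rw [map_mul, hν7]; simp)
  have d14 : ∀ x, ψ1 x = 0 ∨ ψ4 x = 0 :=
    key false z (μ * z) ψ1 ψ4 hC1 hC4 (by simp) (by simp) false
      (by rw [map_mul, hμ5]; simp) (by rw [map_mul, hμ7]; simp)
  have d23 : ∀ x, ψ2 x = 0 ∨ ψ3 x = 0 :=
    key true (ν * (μ * z)) (ν * z) ψ2 ψ3 hC2 hC3 (by rw [map_mul _ ν, map_mul _ μ, hν5, hμ5]; simp)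
      (by rw [map_mul _ ν, map_mul _ μ, hν7, hμ7]; simp) true
      (by rw [map_mul, hν5]; simp) (by rw [map_mul, hν7]; simp)
  have d24 : ∀ x, ψ2 x = 0 ∨ ψ4 x = 0 :=
    key true (ν * (μ * z)) (μ * z) ψ2 ψ4 hC2 hC4 (by rw [map_mul _ ν, map_mul _ μ, hν5, hμ5]; simp)
      (by rw [map_mul _ ν, map_mul _ μ, hν7, hμ7]; simp) false
      (by rw [map_mul, hμ5]; simp) (by rw [map_mul, hμ7]; simp)
  have habs : ∀ x, |ψ1 x + ψ2 x + (ψ3 x + ψ4 x)| ≤ 2 := by
    intro x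
    have a1 := abs_le.1 (RH_cub_abs hC1 x)
    have a2 := abs_le.1 (RH_cub_abs hC2 x)
    have a3 := abs_le.1 (RH_cub_abs hC3 x)
    have a4 := abs_le.1 (RH_cub_abs hC4 x)
    rw [abs_le]
    rcases d13 x with e1 | e1 <;> rcases d14 x with e2 | e2 <;> rcases d23 x with e3 | e3 <;>
      rcases d24 x with e4 | e4 <;> constructor <;> omega
  have hBd : Bd D ev (fun x => ψ1 x + ψ2 x + (ψ3 x + ψ4 x)) 4 := by
    refine ⟨fun x => (habs x).trans (by norm_num), ?_⟩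
    intro _ _ y y' _
    calc |ψ1 y' + ψ2 y' + (ψ3 y' + ψ4 y') - (ψ1 y + ψ2 y + (ψ3 y + ψ4 y))|
        ≤ |ψ1 y' + ψ2 y' + (ψ3 y' + ψ4 y')| + |ψ1 y + ψ2 y + (ψ3 y + ψ4 y)| := abs_sub _ _
      _ ≤ 2 + 2 := add_le_add (habs y') (habs y)
      _ = 4 := by norm_num
  have h4 := h.est _ 4 (RH_tst_add (RH_tst_add hT1 hT2) (RH_tst_add hT3 hT4)) hBd
  have h5 : ∑ x, f x * (ψ1 x + ψ2 x + (ψ3 x + ψ4 x)) =
      8 * (Nat.card (Gam D q) : ℤ) * dl v L f z := by
    simp only [mul_add]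
    rw [Finset.sum_add_distrib, Finset.sum_add_distrib, Finset.sum_add_distrib,
      hs1 f h.odd h.mdv, hs2 f h.odd h.mdv, hs3 f h.odd h.mdv, hs4 f h.odd h.mdv,
      hA, hB, hA]
    ring
  rw [h5] at h4
  exact RH_int 8 _ _ _ (by norm_num) (RH_card D q hq hqD h11) h4 (by norm_num)

end Pool.Agent.helper88.EF
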